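import Pool.Agent.H67.HM.Stm

open Polynomial MeasureTheory Filter Topology

namespace HM

namespace AbsAux

/-- Hahn-Banach: a functional of norm at most one vanishing on `M` with value the distance -/
theorem exists_functional {X : Type} [NormedAddCommGroup X] [NormedSpace ℂ X]
    (M : Submodule ℂ X) (hM : IsClosed (M : Set X)) (φ : X) (hφ : φ ∉ M) :
    ∃ g : X →L[ℂ] ℂ, ‖g‖ ≤ 1 ∧ (∀ x ∈ M, g x = 0) ∧ ‖g φ‖ = Metric.infDist φ (M : Set X) := by
  have : IsClosed (M : Set X) := hM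
  have hne : (Submodule.Quotient.mk φ : X ⧸ M) ≠ 0 := by
    rwa [Ne, Submodule.Quotient.mk_eq_zero]
  obtain ⟨f, hf1, hf2⟩ := exists_dual_vector ℂ (Submodule.Quotient.mk φ : X ⧸ M)
    (by simpa using hne)
  refine ⟨f.comp (Submodule.mkQL M), ?_, ?_, ?_⟩
  · refine ContinuousLinearMap.opNorm_le_bound _ zero_le_one fun x => ?_
    calc ‖f (Submodule.Quotient.mk x)‖ ≤ ‖f‖ * ‖(Submodule.Quotient.mk x : X ⧸ M)‖ :=
          f.le_opNorm _
      _ ≤ 1 * ‖x‖ := by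
          rw [hf1]; gcongr; exact Submodule.Quotient.norm_mk_le M x
  · intro x hx
    change f (Submodule.Quotient.mk x) = 0
    rw [(Submodule.Quotient.mk_eq_zero M).2 hx, map_zero]
  · change ‖f (Submodule.Quotient.mk φ)‖ = _
    rw [hf2]
    have : ‖(Submodule.Quotient.mk φ : X ⧸ M)‖ = Metric.infDist φ (M : Set X) :=
      QuotientAddGroup.norm_mk (S := M.toAddSubgroup) φ
    rw [this]
    simp [abs_of_nonneg Metric.infDist_nonneg]

end AbsAux

theorem ABS_proved (hKey : S_KEY) (hAsm : S_ASM) : S_ABS := by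
  intro p _ hp1 hp2 X _ _ _ S M hM hT hMd hD htail
  classical
  obtain ⟨φ₀, hφ₀⟩ : ∃ x, x ∈ S.Sm := hD.nonempty
  suffices h : ∃ s : ℕ → {Λ : Finset ℂ // ∀ s ∈ Λ, 0 < s.re}, ∀ f : X, f ∈ M ↔
      Tendsto (fun n => Metric.infDist f (Submodule.span ℂ (S.e '' ((s n).1 : Set ℂ)) : Set X))
        atTop (𝓝 0) by
    obtain ⟨s, hs⟩ := h
    exact ⟨fun n => (s n).1, fun n => (s n).2, hs⟩
  refine hAsm X M S.Sm ((M : Set X) ∩ S.Sm) {Λ : Finset ℂ // ∀ s ∈ Λ, 0 < s.re}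
    (fun Λ => Submodule.span ℂ (S.e '' (Λ.1 : Set ℂ))) (1 / 8) hM (by norm_num) hD
    Set.inter_subset_left hMd ?_ ?_
  · intro m f hf ε hε
    obtain ⟨Λ, g', h1, -, -, -, h2⟩ := hKey p hp1 hp2 X S 0 (by simp) m f (fun i => (hf i).2)
      (fun i r _ => by simp) φ₀ hφ₀ ε hε htail
    exact ⟨⟨Λ, h1⟩, h2⟩
  · intro m f hf ε hε φ hφ hφM
    obtain ⟨g, hg1, hg2, hg3⟩ := AbsAux.exists_functional M hM φ hφM
    have hd : 0 < Metric.infDist φ (M : Set X) := by
      refine lt_of_le_of_ne Metric.infDist_nonneg fun h => ?_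
      exact hφM ((hM.mem_iff_infDist_zero ⟨0, M.zero_mem⟩).2 h.symm)
    obtain ⟨Λ, g', h1, h2, h3, h4, h5⟩ := hKey p hp1 hp2 X S g hg1 m f (fun i => (hf i).2)
      (fun i r hr => hg2 _ (hT r hr _ (hf i).1)) φ hφ (min ε (Metric.infDist φ (M : Set X) / 2))
      (by positivity) htail
    refine ⟨⟨Λ, h1⟩, fun j => (h5 j).trans (min_le_left _ _), ?_⟩
    have h6 : Metric.infDist φ (M : Set X) / 2 ≤ ‖g' φ‖ := by
      have a1 := h4.trans (min_le_right _ _)
      have a2 := norm_sub_norm_le (g φ) (g' φ)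
      rw [norm_sub_rev] at a2
      rw [hg3] at a2
      linarith
    have hne : ((Submodule.span ℂ (S.e '' (Λ : Set ℂ)) : Submodule ℂ X) : Set X).Nonempty :=
      ⟨0, Submodule.zero_mem _⟩
    refine (Metric.le_infDist hne).2 fun v hv => ?_
    have h7 : g' v = 0 := by
      have : Submodule.span ℂ (S.e '' (Λ : Set ℂ)) ≤ LinearMap.ker (g' : X →ₗ[ℂ] ℂ) := by
        rw [Submodule.span_le]
        rintro x ⟨s, hs, rfl⟩
        exact h3 s hs
      exact this hv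
    have h8 : ‖g' φ‖ ≤ 4 * dist φ v := by
      calc ‖g' φ‖ = ‖g' (φ - v)‖ := by rw [map_sub, h7, sub_zero]
        _ ≤ ‖g'‖ * ‖φ - v‖ := g'.le_opNorm _
        _ ≤ 4 * ‖φ - v‖ := by gcongr
        _ = 4 * dist φ v := by rw [dist_eq_norm]
    linarith

end HM
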